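import Mathlib
import Pool.Agent.R928.Frac2
import Pool.Agent.R928.Cyc4

/-!
# Division algebras of degree four over `ℂ(s, t)` are cyclic

The reduced characteristic polynomial of an element of a division algebra of degree `4` has three
middle coefficients, forms of degrees `1, 2, 3` in `16` variables. Since `16 > 1 + 4 + 9`, the
theorem of Tsen and Lang for systems of forms over `ℂ(s, t)` gives a nonzero element `x` for which
they vanish, that is `x ^ 4 = f` with `f` in `ℂ(s, t)`, and `ℂ(s, t)(x)` is a cyclic maximal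
subfield.
-/

set_option autoImplicit false

namespace Pool.Agent.Results.MP_2556b4_ag.IndexFour

/-- Let `F = ℂ(s, t)` and let `D` be a central division algebra over `F` of degree four (dimension
sixteen over `F`). Then `D` is cyclic: it contains (a copy of) a field extension `L` of `F` of degree
four which is Galois with cyclic Galois group. -/
theorem result (D : Type) [DivisionRing D] [Algebra (FractionRing (MvPolynomial (Fin 2) ℂ)) D]
    [Algebra.IsCentral (FractionRing (MvPolynomial (Fin 2) ℂ)) D]
    (hD : Module.finrank (FractionRing (MvPolynomial (Fin 2) ℂ)) D = 4 ^ 2) :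
    ∃ (L : Type) (_ : Field L) (_ : Algebra (FractionRing (MvPolynomial (Fin 2) ℂ)) L)
      (_ : L →ₐ[FractionRing (MvPolynomial (Fin 2) ℂ)] D),
      Module.finrank (FractionRing (MvPolynomial (Fin 2) ℂ)) L = 4 ∧
      IsGalois (FractionRing (MvPolynomial (Fin 2) ℂ)) L ∧
      IsCyclic Gal(L/FractionRing (MvPolynomial (Fin 2) ℂ)) := by
  classical
  let F := FractionRing (MvPolynomial (Fin 2) ℂ)
  have hchar : CharZero F := inferInstance
  obtain ⟨ζ, hζ⟩ : ∃ ζ : ℂ, IsPrimitiveRoot ζ 4 := ⟨_, Complex.isPrimitiveRoot_exp 4 (by norm_num)⟩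
  have hζF : IsPrimitiveRoot (algebraMap ℂ F ζ) 4 := hζ.map_of_injective (algebraMap ℂ F).injective
  obtain ⟨z, hirr, hdeg, f, hf⟩ := Pool.Agent.R928.Cyc4.cyclic_of_TL (F := F) (D := D)
    (by rw [hD]; norm_num) (algebraMap ℂ F ζ) hζF (by
      intro Ψ h1 h2
      exact Pool.Agent.R928.TL.exists_zero_frac ℂ Ψ (fun j => (j : ℕ) + 1) h1 h2 (by
        rw [Fin.sum_univ_three]; simp))
  have : Fact (Irreducible (minpoly F z)) := ⟨hirr⟩
  let L := AdjoinRoot (minpoly F z)
  let φ : L →ₐ[F] D := Ideal.Quotient.liftₐ (Ideal.span {minpoly F z}) (Polynomial.aeval z) (by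
    intro a ha
    rw [Ideal.mem_span_singleton] at ha
    obtain ⟨q, rfl⟩ := ha
    rw [map_mul, minpoly.aeval, zero_mul])
  have hfin : FiniteDimensional F L := (AdjoinRoot.powerBasis hirr.ne_zero).finite
  have h4 : Module.finrank F L = 4 := by
    rw [(AdjoinRoot.powerBasis hirr.ne_zero).finrank, AdjoinRoot.powerBasis_dim, hdeg]
  have hcyc : IsGalois F L ∧ IsCyclic Gal(L/F) := by
    have htfae := isCyclic_tfae F L (by
      rw [h4]
      exact ⟨algebraMap ℂ F ζ, (mem_primitiveRoots (by norm_num)).2 hζF⟩)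
    have h02 := (htfae.out 0 2).2
    apply h02
    refine ⟨AdjoinRoot.root (minpoly F z), ?_, ?_⟩
    · rw [h4]
      refine ⟨f, ?_⟩
      have h5 : Polynomial.aeval (AdjoinRoot.root (minpoly F z)) (minpoly F z) = 0 := by
        rw [Polynomial.aeval_def]
        exact AdjoinRoot.eval₂_root (minpoly F z)
      have h6 : Polynomial.aeval (AdjoinRoot.root (minpoly F z)) (Polynomial.X ^ 4 - Polynomial.C f : Polynomial F) = 0 := by
        rw [← hf]; exact h5
      rw [map_sub, map_pow, Polynomial.aeval_X, Polynomial.aeval_C] at h6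
      exact (sub_eq_zero.1 h6).symm
    · have h5 := (AdjoinRoot.powerBasis hirr.ne_zero).adjoin_gen_eq_top
      rw [AdjoinRoot.powerBasis_gen] at h5
      exact IntermediateField.adjoin_eq_top_of_algebra F {AdjoinRoot.root (minpoly F z)} h5
  exact ⟨L, inferInstance, inferInstance, φ, h4, hcyc.1, hcyc.2⟩

end Pool.Agent.Results.MP_2556b4_ag.IndexFour
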